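import Pool.Agent.H997R3.Gon.Upper

/-!
# Complete networks
-/

set_option autoImplicit false

namespace Pool.Agent.H997R3.Gon

open Finset

namespace Net

/-- pairs `u < v` of nodes -/
abbrev Pair (n : ℕ) : Type := {p : Fin n × Fin n // p.1 < p.2}

/-- the network on `n` nodes with one arc for each pair of nodes -/
def complete {n : ℕ} (L : Fin n → Fin n → ℕ) (hL : ∀ u v, u < v → 1 ≤ L u v) :
    Net (Fin n) (Pair n) where
  a p := p.1.1
  b p := p.1.2
  len p := L p.1.1 p.1.2
  pos p := hL _ _ p.2

variable {n : ℕ} (L : Fin n → Fin n → ℕ) (hL : ∀ u v, u < v → 1 ≤ L u v)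

theorem complete_upper (M k : ℕ) (hk : 2 ≤ k) (T : Fin n → Fin n → ℤ) (h0 : ∀ u v, 0 ≤ T u v)
    (hd : ∀ u, T u u = 0) (hc : ∀ u v, u ≠ v → T u v + T v u = k * (L u v : ℤ))
    (hs : ∀ u v, L u v = L v u)
    (ht : ∀ u v w, T u w ≤ T u v + T v w) :
    ((((complete L hL).graph M).subdiv k).gon) ≤ Fintype.card (Pair n) := by
  have key : ∀ F : Fin n → ℤ, (∀ u v, F v - F u ≤ T u v) → ∀ e : Pair n,
      0 ≤ T ((complete L hL).a e) ((complete L hL).b e) + F ((complete L hL).a e) -
        F ((complete L hL).b e) ∧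
      T ((complete L hL).a e) ((complete L hL).b e) + F ((complete L hL).a e) -
        F ((complete L hL).b e) ≤ k * ((complete L hL).len e : ℤ) := by
    rintro F hF ⟨⟨u, v⟩, huv⟩
    simp only [complete]
    have h1 := hF u v
    have h2 := hF v u
    have h3 := hc u v (ne_of_lt huv)
    constructor <;> linarith
  refine (complete L hL).upper M k hk (fun e => T ((complete L hL).a e) ((complete L hL).b e))
    ?_ ?_ ?_
  · intro e
    have := key (fun _ => 0) (fun u v => by simpa using h0 u v) e
    simpa using this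
  · rintro ⟨⟨x, y⟩, hxy⟩ p hp0 hp1
    have h3 := hc x y (ne_of_lt hxy)
    have hp1' : p ≤ k * (L x y : ℤ) := hp1
    rcases le_or_gt p (T x y) with hp | hp
    · refine ⟨fun v => min (T x v) (T x y - p), ?_, key (fun v => min (T x v) (T x y - p)) ?_⟩
      · simp only [complete]
        rw [hd x]
        omega
      · intro u v
        have h1 := ht x u v
        have h2 := h0 u v
        omega
    · refine ⟨fun v => min (T y v) (p - T x y), ?_, key (fun v => min (T y v) (p - T x y)) ?_⟩
      · simp only [complete]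
        rw [hd y]
        omega
      · intro u v
        have h1 := ht y u v
        have h2 := h0 u v
        omega
  · intro u
    refine ⟨fun v => T u v, key (fun v => T u v) ?_, ?_, ?_⟩
    · intro x v
      have h1 := ht u x v
      linarith
    · rintro ⟨⟨x, y⟩, hxy⟩ hx
      simp only [complete] at hx ⊢
      rw [hx, hd u]
      ring
    · rintro ⟨⟨x, y⟩, hxy⟩ hx
      simp only [complete] at hx ⊢
      have h3 := hc x y (ne_of_lt hxy)
      rw [hx] at h3 ⊢
      rw [hd u]
      linarith

theorem complete_lower (M : ℕ) (hM : Fintype.card (Pair n) < M) (hs : ∀ u v, L u v = L v u)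
    (hg : ((complete L hL).graph M).gon ≤ Fintype.card (Pair n)) :
    ∃ S : Fin n → Fin n → ℤ, (∀ u, S u u = 0) ∧ (∀ u v, u ≠ v → S u v + S v u = (L u v : ℤ)) ∧
      ∀ u v w, S u w ≤ S u v + S v w := by
  obtain ⟨s, hsF⟩ := (complete L hL).lower M hM hg
  set S : Fin n → Fin n → ℤ := fun u v =>
    if h : u < v then s ⟨(u, v), h⟩ else if h : v < u then (L u v : ℤ) - s ⟨(v, u), h⟩ else 0
    with hS
  have hSd : ∀ u, S u u = 0 := by
    intro u
    simp [hS]
  have hSlt : ∀ u v (h : u < v), S u v = s ⟨(u, v), h⟩ := by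
    intro u v h
    simp [hS, h]
  have hSgt : ∀ u v (h : v < u), S u v = (L u v : ℤ) - s ⟨(v, u), h⟩ := by
    intro u v h
    have h' : ¬ u < v := not_lt_of_gt h
    simp [hS, h, h']
  have hLip : ∀ F : Fin n → ℤ, (∀ e, 0 ≤ s e + F ((complete L hL).a e) - F ((complete L hL).b e) ∧
      s e + F ((complete L hL).a e) - F ((complete L hL).b e) ≤ (complete L hL).len e) →
      ∀ u v, F v - F u ≤ S u v := by
    intro F hF u v
    rcases lt_trichotomy u v with h | h | h
    · rw [hSlt u v h]
      have := (hF ⟨(u, v), h⟩).1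
      simp only [complete] at this
      linarith
    · subst h
      rw [hSd]
      linarith
    · rw [hSgt u v h, hs u v]
      have := (hF ⟨(v, u), h⟩).2
      simp only [complete] at this
      linarith
  refine ⟨S, hSd, ?_, ?_⟩
  · intro u v huv
    rcases lt_or_gt_of_ne huv with h | h
    · rw [hSlt u v h, hSgt v u h, hs u v]
      ring
    · rw [hSlt v u h, hSgt u v h]
      ring
  · intro u v w
    rcases lt_trichotomy u w with h | h | h
    · obtain ⟨F, hF1, hF⟩ := hsF ⟨(u, w), h⟩ false
      have h1 := hLip F hF u v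
      have h2 := hLip F hF v w
      simp only [complete, Bool.false_eq_true, if_false] at hF1
      rw [hSlt u w h]
      linarith
    · subst h
      rw [hSd]
      by_cases huv : u = v
      · subst huv
        rw [hSd]
        norm_num
      · have h1 : S u v + S v u = (L u v : ℤ) := by
          rcases lt_or_gt_of_ne huv with h | h
          · rw [hSlt u v h, hSgt v u h, hs u v]
            ring
          · rw [hSlt v u h, hSgt u v h]
            ring
        rw [h1]
        positivity
    · obtain ⟨F, hF1, hF⟩ := hsF ⟨(w, u), h⟩ true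
      have h1 := hLip F hF u v
      have h2 := hLip F hF v w
      simp only [complete, if_true] at hF1
      rw [hSgt u w h, hs u w]
      linarith

theorem complete_connected (M : ℕ) (hM : 0 < M) (hn : 2 ≤ n) :
    ((complete L hL).graph M).Connected := by
  set R := complete L hL with hR
  set G := SimpleGraph.fromRel (fun x y => ∃ e, (R.graph M).src e = x ∧ (R.graph M).tgt e = y)
    with hG
  have hstep : ∀ ed, G.Reachable ((R.graph M).src ed) ((R.graph M).tgt ed) := by
    intro ed
    apply SimpleGraph.Adj.reachable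
    rw [hG, SimpleGraph.fromRel_adj]
    exact ⟨(R.graph M).ne ed, Or.inl ⟨ed, rfl, rfl⟩⟩
  have hpath : ∀ (e : Pair n) (i : Fin (R.len e + 1)), G.Reachable ⟨e, 0⟩ ⟨e, i⟩ := by
    intro e i
    induction i using Fin.induction with
    | zero => exact SimpleGraph.Reachable.refl _
    | succ i ih => exact ih.trans (hstep (Sum.inl ⟨e, i⟩))
  have hthick : ∀ x y, R.node x = R.node y → G.Reachable (R.endV x) (R.endV y) := by
    intro x y hxy
    by_cases hne : x = y
    · rw [hne]
    · exact hstep (Sum.inr (⟨(x, y), hne, hxy⟩, ⟨0, hM⟩))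
  have h0 : ∀ e : Pair n, R.endV (e, false) = ⟨e, 0⟩ := fun e => rfl
  have h1 : ∀ e : Pair n, R.endV (e, true) = ⟨e, Fin.last _⟩ := fun e => rfl
  have hbase : ∀ e e' : Pair n, G.Reachable (⟨e, 0⟩ : R.Vert) ⟨e', 0⟩ := by
    intro e e'
    rcases lt_trichotomy e.1.1 e'.1.1 with h | h | h
    · have s1 := hthick (e, false) (⟨(e.1.1, e'.1.1), h⟩, false) rfl
      have s2 := hpath ⟨(e.1.1, e'.1.1), h⟩ (Fin.last _)
      have s3 := hthick (⟨(e.1.1, e'.1.1), h⟩, true) (e', false) rfl
      rw [h0, h0] at s1
      rw [h0, h1] at s3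
      exact s1.trans (s2.trans s3)
    · exact hthick (e, false) (e', false) h
    · have s1 := hthick (e', false) (⟨(e'.1.1, e.1.1), h⟩, false) rfl
      have s2 := hpath ⟨(e'.1.1, e.1.1), h⟩ (Fin.last _)
      have s3 := hthick (⟨(e'.1.1, e.1.1), h⟩, true) (e, false) rfl
      rw [h0, h0] at s1
      rw [h0, h1] at s3
      exact (s1.trans (s2.trans s3)).symm
  unfold MGraph.Connected
  rw [← hG, SimpleGraph.connected_iff]
  constructor
  · rintro ⟨e, i⟩ ⟨e', i'⟩
    exact (hpath e i).symm.trans ((hbase e e').trans (hpath e' i'))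
  · have h01 : (⟨0, by omega⟩ : Fin n) < ⟨1, by omega⟩ := by
      rw [Fin.lt_def]
      norm_num
    exact ⟨⟨⟨(⟨0, by omega⟩, ⟨1, by omega⟩), h01⟩, 0⟩⟩

end Net

end Pool.Agent.H997R3.Gon
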