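import Mathlib

/-!
# Divisors on loopless multigraphs and uniform subdivisions
-/

set_option autoImplicit false

namespace Pool.Agent.H997R3.Gon

open Finset

/-- A loopless multigraph with vertex set `V` and edge set `E`; the edge `e` joins the two
distinct vertices `src e` and `tgt e`. -/
structure MGraph (V E : Type) where
  /-- one end of an edge -/
  src : E → V
  /-- the other end of an edge -/
  tgt : E → V
  /-- there are no loops -/
  ne : ∀ e, src e ≠ tgt e

namespace MGraph

variable {V E : Type}

/-- The graph is connected: the simple graph on the same vertices, in which two vertices are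
adjacent when some edge joins them, is connected. -/
def Connected (G : MGraph V E) : Prop :=
  (SimpleGraph.fromRel (fun x y => ∃ e, G.src e = x ∧ G.tgt e = y)).Connected

/-- The Laplacian: `lap f v` is the sum of `f v - f w` over all edges joining `v` to a vertex
`w`. -/
def lap [DecidableEq V] [Fintype E] (G : MGraph V E) (f : V → ℤ) (v : V) : ℤ :=
  ∑ e : E, ((if G.src e = v then f v - f (G.tgt e) else 0) +
    (if G.tgt e = v then f v - f (G.src e) else 0))

/-- `D` is an effective divisor of rank at least one: `D` is nonnegative and, for every vertex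
`v`, the divisor `D - v` is linearly equivalent to an effective divisor. -/
def EffRankOne [DecidableEq V] [Fintype E] (G : MGraph V E) (D : V → ℤ) : Prop :=
  (∀ v, 0 ≤ D v) ∧
    ∀ v, ∃ f : V → ℤ, ∀ w, 0 ≤ D w - (if w = v then 1 else 0) - G.lap f w

/-- The divisorial gonality: the least degree of an effective divisor of rank at least one. -/
noncomputable def gon [Fintype V] [DecidableEq V] [Fintype E] (G : MGraph V E) : ℕ :=
  sInf {d : ℕ | ∃ D : V → ℤ, G.EffRankOne D ∧ ∑ v, D v = (d : ℤ)}

/-- The `i`-th vertex, `0 ≤ i ≤ k`, on the path of `k` edges replacing the edge `e`: it is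
`src e` for `i = 0`, `tgt e` for `i = k`, and a new vertex in between. -/
def point (G : MGraph V E) (k : ℕ) (e : E) (i : ℕ) : V ⊕ (E × Fin (k - 1)) :=
  if i = 0 then Sum.inl (G.src e)
  else if h : i - 1 < k - 1 then Sum.inr (e, ⟨i - 1, h⟩)
  else Sum.inl (G.tgt e)

lemma point_zero (G : MGraph V E) (k : ℕ) (e : E) : G.point k e 0 = Sum.inl (G.src e) := by
  simp [point]

lemma point_last (G : MGraph V E) {k : ℕ} (hk : 1 ≤ k) (e : E) :
    G.point k e k = Sum.inl (G.tgt e) := by
  have h0 : k ≠ 0 := by omega
  simp [point, h0]

lemma point_inner (G : MGraph V E) {k : ℕ} (e : E) (j : Fin (k - 1)) :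
    G.point k e (j.val + 1) = Sum.inr (e, j) := by
  simp [point]

/-- The uniform subdivision: every edge is replaced by a path of `k` edges, through `k - 1` new
vertices. -/
def subdiv (G : MGraph V E) (k : ℕ) : MGraph (V ⊕ (E × Fin (k - 1))) (E × Fin k) where
  src p := G.point k p.1 p.2.val
  tgt p := G.point k p.1 (p.2.val + 1)
  ne := by
    rintro ⟨e, i⟩
    have hi := i.isLt
    unfold point
    rcases Nat.eq_zero_or_pos i.val with h | h
    · simp only [h]
      by_cases hk : 0 < k - 1
      · simp [hk]
      · simp [hk, G.ne e]
    · have h0 : i.val ≠ 0 := by omega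
      have h1 : i.val - 1 < k - 1 := by omega
      by_cases hk : i.val < k - 1
      · simp only [h0, if_false, h1, dif_pos]
        simp only [Nat.add_sub_cancel, hk, dif_pos]
        simp only [Nat.add_eq_zero_iff, one_ne_zero, and_false, if_false, ne_eq, Sum.inr.injEq,
          Prod.mk.injEq, Fin.mk.injEq, true_and]
        omega
      · simp only [h0, if_false, h1, dif_pos]
        simp [hk]

end MGraph

end Pool.Agent.H997R3.Gon
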