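import Pool.Agent.H997R3.Gon.Complete

/-!
# The example: eight nodes
-/

set_option autoImplicit false

namespace Pool.Agent.H997R3.Gon

namespace Example

/-- there is no integral quasi-metric with the given symmetrisation -/
lemma no_quasi (s : Fin 8 → Fin 8 → ℤ)
    (c01 : s 0 1 + s 1 0 = 1) (c02 : s 0 2 + s 2 0 = 1) (c12 : s 1 2 + s 2 1 = 2)
    (c03 : s 0 3 + s 3 0 = 1) (c13 : s 1 3 + s 3 1 = 1) (c23 : s 2 3 + s 3 2 = 1)
    (c04 : s 0 4 + s 4 0 = 2) (c14 : s 1 4 + s 4 1 = 1) (c24 : s 2 4 + s 4 2 = 2)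
    (c34 : s 3 4 + s 4 3 = 1) (c05 : s 0 5 + s 5 0 = 2) (_c15 : s 1 5 + s 5 1 = 2)
    (c25 : s 2 5 + s 5 2 = 1) (c35 : s 3 5 + s 5 3 = 2) (c45 : s 4 5 + s 5 4 = 1)
    (c06 : s 0 6 + s 6 0 = 1) (_c16 : s 1 6 + s 6 1 = 2) (c26 : s 2 6 + s 6 2 = 1)
    (c36 : s 3 6 + s 6 3 = 2) (c46 : s 4 6 + s 6 4 = 2) (c56 : s 5 6 + s 6 5 = 1)
    (c07 : s 0 7 + s 7 0 = 3) (c17 : s 1 7 + s 7 1 = 3) (c27 : s 2 7 + s 7 2 = 2)
    (c37 : s 3 7 + s 7 3 = 2) (c47 : s 4 7 + s 7 4 = 2) (_c57 : s 5 7 + s 7 5 = 2)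
    (c67 : s 6 7 + s 7 6 = 3)
    (hg : ∀ v, s 0 v ≤ 0) (h0 : ∀ u v, 0 ≤ s u v) (ht : ∀ u v w, s u w ≤ s u v + s v w) :
    False := by
  rcases le_or_gt (s 4 7) 0 with b168 | b168'
  · skip
    have b0 : 0 ≤ s 0 1 := h0 0 1
    have b1 : 0 ≤ s 0 2 := h0 0 2
    have b2 : 0 ≤ s 0 3 := h0 0 3
    have b5 : 0 ≤ s 0 6 := h0 0 6
    have b18 : 0 ≤ s 2 5 := h0 2 5
    have b20 : 0 ≤ s 2 7 := h0 2 7
    have b27 : 0 ≤ s 3 7 := h0 3 7
    have b63 : s 1 0 ≤ 1 := by have := c01; omega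
    have b70 : s 2 0 ≤ 1 := by have := c02; omega
    have b77 : s 3 0 ≤ 1 := by have := c03; omega
    have b93 : s 5 2 ≤ 1 := by have := c25; omega
    have b98 : s 6 0 ≤ 1 := by have := c06; omega
    have b107 : s 7 2 ≤ 2 := by have := c27; omega
    have b108 : s 7 3 ≤ 2 := by have := c37; omega
    have b112 : s 0 1 ≤ 0 := hg 1
    have b115 : s 0 4 ≤ 0 := hg 4
    have b116 : s 0 5 ≤ 0 := hg 5
    have b117 : s 0 6 ≤ 0 := hg 6
    have b122 : 2 ≤ s 4 0 := by have := c04; omega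
    have b123 : 2 ≤ s 5 0 := by have := c05; omega
    have b130 : s 2 1 ≤ 1 := by have := ht 2 0 1; omega
    have b134 : s 3 6 ≤ 1 := by have := ht 3 0 6; omega
    have b136 : 1 ≤ s 4 1 := by have := ht 4 1 0; omega
    have b138 : 1 ≤ s 4 3 := by have := ht 4 3 0; omega
    have b143 : 1 ≤ s 5 6 := by have := ht 5 6 0; omega
    have b156 : 1 ≤ s 1 2 := by have := c12; omega
    have b157 : 1 ≤ s 6 3 := by have := c36; omega
    have b158 : s 1 4 ≤ 0 := by have := c14; omega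
    have b159 : s 3 4 ≤ 0 := by have := c34; omega
    have b161 : s 6 5 ≤ 0 := by have := c56; omega
    have b170 : s 1 7 ≤ 0 := by have := ht 1 4 7; omega
    have b171 : 3 ≤ s 7 1 := by have := c17; omega
    have b172 : 1 ≤ s 3 1 := by have := ht 7 3 1; omega
    have b173 : s 1 3 ≤ 0 := by have := c13; omega
    have b174 : 1 ≤ s 3 2 := by have := ht 1 3 2; omega
    have b175 : s 2 3 ≤ 0 := by have := c23; omega
    have b177 : s 5 3 ≤ 1 := by have := ht 5 2 3; omega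
    have b178 : 1 ≤ s 6 2 := by have := ht 6 2 3; omega
    have b180 : 1 ≤ s 3 5 := by have := c35; omega
    have b181 : s 2 6 ≤ 0 := by have := c26; omega
    have b182 : 1 ≤ s 4 5 := by have := ht 3 4 5; omega
    have b183 : s 7 6 ≤ 2 := by have := ht 7 2 6; omega
    have b184 : s 5 4 ≤ 0 := by have := c45; omega
    have b185 : 1 ≤ s 6 7 := by have := c67; omega
    have b188 : 1 ≤ s 6 4 := by have := ht 6 4 7; omega
    have b191 : 1 ≤ s 5 4 := by have := ht 6 5 4; omega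
    omega
  · have b196 : 1 ≤ s 4 7 := by omega
    clear b168'
    have b0 : 0 ≤ s 0 1 := h0 0 1
    have b1 : 0 ≤ s 0 2 := h0 0 2
    have b2 : 0 ≤ s 0 3 := h0 0 3
    have b5 : 0 ≤ s 0 6 := h0 0 6
    have b10 : 0 ≤ s 1 4 := h0 1 4
    have b24 : 0 ≤ s 3 4 := h0 3 4
    have b47 : 0 ≤ s 6 5 := h0 6 5
    have b63 : s 1 0 ≤ 1 := by have := c01; omega
    have b70 : s 2 0 ≤ 1 := by have := c02; omega
    have b77 : s 3 0 ≤ 1 := by have := c03; omega
    have b85 : s 4 1 ≤ 1 := by have := c14; omega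
    have b87 : s 4 3 ≤ 1 := by have := c34; omega
    have b96 : s 5 6 ≤ 1 := by have := c56; omega
    have b98 : s 6 0 ≤ 1 := by have := c06; omega
    have b113 : s 0 2 ≤ 0 := hg 2
    have b114 : s 0 3 ≤ 0 := hg 3
    have b116 : s 0 5 ≤ 0 := hg 5
    have b118 : s 0 7 ≤ 0 := hg 7
    have b123 : 2 ≤ s 5 0 := by have := c05; omega
    have b125 : 3 ≤ s 7 0 := by have := c07; omega
    have b126 : s 1 2 ≤ 1 := by have := ht 1 0 2; omega
    have b141 : 1 ≤ s 5 2 := by have := ht 5 2 0; omega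
    have b145 : s 6 3 ≤ 1 := by have := ht 6 0 3; omega
    have b149 : 2 ≤ s 7 2 := by have := ht 7 2 0; omega
    have b150 : 2 ≤ s 7 3 := by have := ht 7 3 0; omega
    have b154 : 1 ≤ s 2 1 := by have := c12; omega
    have b160 : s 2 5 ≤ 0 := by have := c25; omega
    have b163 : 1 ≤ s 3 6 := by have := c36; omega
    have b164 : s 2 7 ≤ 0 := by have := c27; omega
    have b165 : s 3 7 ≤ 0 := by have := c37; omega
    have b197 : s 7 4 ≤ 1 := by have := c47; omega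
    have b198 : s 7 1 ≤ 2 := by have := ht 7 4 1; omega
    have b199 : 1 ≤ s 1 7 := by have := c17; omega
    have b200 : 1 ≤ s 1 3 := by have := ht 1 3 7; omega
    have b201 : s 3 1 ≤ 0 := by have := c13; omega
    have b202 : 1 ≤ s 2 3 := by have := ht 2 3 1; omega
    have b203 : s 3 2 ≤ 0 := by have := c23; omega
    have b205 : 1 ≤ s 2 6 := by have := ht 3 2 6; omega
    have b206 : s 4 2 ≤ 1 := by have := ht 4 3 2; omega
    have b207 : s 6 2 ≤ 0 := by have := c26; omega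
    have b209 : 1 ≤ s 2 4 := by have := c24; omega
    have b210 : 1 ≤ s 5 4 := by have := ht 2 5 4; omega
    have b211 : s 6 7 ≤ 0 := by have := ht 6 2 7; omega
    have b212 : s 4 5 ≤ 0 := by have := c45; omega
    have b213 : 3 ≤ s 7 6 := by have := c67; omega
    have b216 : s 4 6 ≤ 1 := by have := ht 4 5 6; omega
    have b220 : 2 ≤ s 4 6 := by have := ht 7 4 6; omega
    omega

/-- the lengths of the arcs -/
def L : Fin 8 → Fin 8 → ℕ :=
  ![![0, 1, 1, 1, 2, 2, 1, 3], ![1, 0, 2, 1, 1, 2, 2, 3], ![1, 2, 0, 1, 2, 1, 1, 2],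
    ![1, 1, 1, 0, 1, 2, 2, 2], ![2, 1, 2, 1, 0, 1, 2, 2], ![2, 2, 1, 2, 1, 0, 1, 2],
    ![1, 2, 1, 2, 2, 1, 0, 3], ![3, 3, 2, 2, 2, 2, 3, 0]]

/-- an integral quasi-metric whose symmetrisation is three times the length -/
def T3 : Fin 8 → Fin 8 → ℤ :=
  ![![0, 0, 0, 0, 0, 0, 0, 0], ![3, 0, 3, 1, 0, 2, 3, 1], ![3, 3, 0, 1, 1, 0, 1, 0],
    ![3, 2, 2, 0, 0, 2, 3, 0], ![6, 3, 5, 3, 0, 2, 5, 1], ![6, 4, 3, 4, 1, 0, 3, 2],
    ![3, 3, 2, 3, 1, 0, 0, 2], ![9, 8, 6, 6, 5, 4, 7, 0]]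

lemma L_pos : ∀ u v, u < v → 1 ≤ L u v := by decide

lemma L_symm : ∀ u v, L u v = L v u := by decide

lemma L_tri : ∀ u v w, L u w ≤ L u v + L v w := by decide

lemma L_diag : ∀ u, L u u = 0 := by decide

lemma T3_nonneg : ∀ u v, 0 ≤ T3 u v := by decide

lemma T3_diag : ∀ u, T3 u u = 0 := by decide

lemma T3_symm : ∀ u v, T3 u v + T3 v u = 3 * (L u v : ℤ) := by decide

lemma T3_tri : ∀ u v w, T3 u w ≤ T3 u v + T3 v w := by decide

/-- the graph of the example -/
def G : MGraph (Net.complete L L_pos).Vert ((Net.complete L L_pos).Edge 29) :=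
  (Net.complete L L_pos).graph 29

lemma card_pair : Fintype.card (Net.Pair 8) = 28 := by decide

theorem G_connected : G.Connected :=
  Net.complete_connected L L_pos 29 (by norm_num) (by norm_num)

theorem G_upper (k : ℕ) (hk : 2 ≤ k) : (G.subdiv k).gon ≤ 28 := by
  rw [← card_pair]
  rcases Nat.even_or_odd' k with ⟨m, hm | hm⟩
  · refine Net.complete_upper L L_pos 29 k hk (fun u v => (m : ℤ) * (L u v : ℤ))
      (fun u v => by positivity) (fun u => by rw [L_diag]; simp) (fun u v _ => ?_) L_symm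
      (fun u v w => ?_)
    · rw [L_symm v u, hm]
      push_cast
      ring
    · have h1 : (L u w : ℤ) ≤ (L u v : ℤ) + (L v w : ℤ) := by exact_mod_cast L_tri u v w
      have h2 : (0 : ℤ) ≤ m := by positivity
      nlinarith
  · refine Net.complete_upper L L_pos 29 k hk
      (fun u v => T3 u v + ((m - 1 : ℕ) : ℤ) * (L u v : ℤ))
      (fun u v => ?_) (fun u => by rw [L_diag, T3_diag]; simp) (fun u v _ => ?_) L_symm
      (fun u v w => ?_)
    · have := T3_nonneg u v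
      positivity
    · have h1 := T3_symm u v
      have h2 : ((m - 1 : ℕ) : ℤ) = (m : ℤ) - 1 := by omega
      simp only [h2]
      rw [L_symm v u, hm]
      push_cast
      linarith
    · have h1 : (L u w : ℤ) ≤ (L u v : ℤ) + (L v w : ℤ) := by exact_mod_cast L_tri u v w
      have h2 : (0 : ℤ) ≤ ((m - 1 : ℕ) : ℤ) := by positivity
      have h3 := T3_tri u v w
      nlinarith

theorem G_lower : 28 < G.gon := by
  by_contra hcon
  have hle : G.gon ≤ Fintype.card (Net.Pair 8) := by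
    rw [card_pair]
    omega
  obtain ⟨S, hd, hc, ht⟩ := Net.complete_lower L L_pos 29 (by rw [card_pair]; norm_num) L_symm hle
  have hc' : ∀ u v, u ≠ v → (S u v + S 0 u - S 0 v) + (S v u + S 0 v - S 0 u) = (L u v : ℤ) := by
    intro u v huv
    have := hc u v huv
    linarith
  refine no_quasi (fun u v => S u v + S 0 u - S 0 v)
    (hc' 0 1 (by decide))
    (hc' 0 2 (by decide))
    (hc' 1 2 (by decide))
    (hc' 0 3 (by decide))
    (hc' 1 3 (by decide))
    (hc' 2 3 (by decide))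
    (hc' 0 4 (by decide))
    (hc' 1 4 (by decide))
    (hc' 2 4 (by decide))
    (hc' 3 4 (by decide))
    (hc' 0 5 (by decide))
    (hc' 1 5 (by decide))
    (hc' 2 5 (by decide))
    (hc' 3 5 (by decide))
    (hc' 4 5 (by decide))
    (hc' 0 6 (by decide))
    (hc' 1 6 (by decide))
    (hc' 2 6 (by decide))
    (hc' 3 6 (by decide))
    (hc' 4 6 (by decide))
    (hc' 5 6 (by decide))
    (hc' 0 7 (by decide))
    (hc' 1 7 (by decide))
    (hc' 2 7 (by decide))
    (hc' 3 7 (by decide))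
    (hc' 4 7 (by decide))
    (hc' 5 7 (by decide))
    (hc' 6 7 (by decide))
    (fun v => ?_) (fun u v => ?_) (fun u v w => ?_)
  · have := hd 0
    linarith
  · have := ht 0 u v
    linarith
  · have := ht u v w
    linarith

end Example

end Pool.Agent.H997R3.Gon
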