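import Pool.Agent.H997R3.Gon.Ratio

/-!
# Networks of arcs with thick clusters: lower bound for the gonality
-/

set_option autoImplicit false

namespace Pool.Agent.H997R3.Gon

open Finset

namespace MGraph

variable {V E : Type} [Fintype V] [DecidableEq V] [Fintype E]

/-- summation by parts -/
lemma sum_mul_lap (G : MGraph V E) (g f : V → ℤ) :
    ∑ v, g v * G.lap f v = ∑ e, (g (G.src e) - g (G.tgt e)) * (f (G.src e) - f (G.tgt e)) := by
  unfold lap
  simp_rw [Finset.mul_sum]
  rw [Finset.sum_comm]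
  refine Finset.sum_congr rfl fun e _ => ?_
  simp_rw [mul_add, mul_ite, mul_zero]
  rw [Finset.sum_add_distrib, Finset.sum_ite_eq, Finset.sum_ite_eq]
  simp only [mem_univ, if_true]
  ring

/-- if `D - lap f` is effective and the degree of `D` is less than the number of parallel edges
between two vertices, then `f` takes the same value at these vertices -/
lemma thick_const (G : MGraph V E) (D f : V → ℤ) (hD0 : ∀ v, 0 ≤ D v)
    (hD : ∀ v, 0 ≤ D v - G.lap f v) (M : ℕ) (hM : ∑ v, D v < (M : ℤ)) (x y : V)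
    (ed : Fin M → E) (hinj : Function.Injective ed)
    (hed : ∀ i, G.src (ed i) = x ∧ G.tgt (ed i) = y) : f x = f y := by
  classical
  by_contra hne
  set T := max (f x) (f y) with hT
  set g : V → ℤ := fun w => if T ≤ f w then 1 else 0 with hg
  have h1 : ∑ v, g v * G.lap f v ≤ ∑ v, D v := by
    refine Finset.sum_le_sum fun v _ => ?_
    simp only [hg]
    have a1 := hD0 v
    have a2 := hD v
    split_ifs <;> linarith
  rw [sum_mul_lap] at h1
  have hterm : ∀ e, 0 ≤ (g (G.src e) - g (G.tgt e)) * (f (G.src e) - f (G.tgt e)) := by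
    intro e
    simp only [hg]
    split_ifs with p q q
    · simp
    · have : 0 ≤ f (G.src e) - f (G.tgt e) := by linarith
      simpa using this
    · have : f (G.src e) - f (G.tgt e) ≤ 0 := by linarith
      simpa using this
    · simp
  have hbig : ∀ i, 1 ≤ (g (G.src (ed i)) - g (G.tgt (ed i))) *
      (f (G.src (ed i)) - f (G.tgt (ed i))) := by
    intro i
    rw [(hed i).1, (hed i).2]
    simp only [hg]
    rcases lt_or_gt_of_ne hne with h | h
    · have e1 : T = f y := max_eq_right h.le
      have : ¬ T ≤ f x := by rw [e1]; linarith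
      have h2 : T ≤ f y := by rw [e1]
      rw [if_neg this, if_pos h2]
      linarith
    · have e1 : T = f x := max_eq_left (le_of_lt h)
      have : ¬ T ≤ f y := by rw [e1]; linarith
      have h2 : T ≤ f x := by rw [e1]
      rw [if_neg this, if_pos h2]
      linarith
  have h2 : (M : ℤ) ≤ ∑ e, (g (G.src e) - g (G.tgt e)) * (f (G.src e) - f (G.tgt e)) := by
    calc (M : ℤ) = ∑ i : Fin M, (1 : ℤ) := by simp
      _ ≤ ∑ i : Fin M, (g (G.src (ed i)) - g (G.tgt (ed i))) *
          (f (G.src (ed i)) - f (G.tgt (ed i))) := Finset.sum_le_sum fun i _ => hbig i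
      _ = ∑ e ∈ Finset.univ.map ⟨ed, hinj⟩, (g (G.src e) - g (G.tgt e)) *
          (f (G.src e) - f (G.tgt e)) := by
          rw [Finset.sum_map]
          rfl
      _ ≤ ∑ e, (g (G.src e) - g (G.tgt e)) * (f (G.src e) - f (G.tgt e)) :=
          Finset.sum_le_sum_of_subset_of_nonneg (Finset.subset_univ _) fun e _ _ => hterm e
  linarith

end MGraph

/-- A network: arcs `e : A` of length `len e ≥ 1` joining the nodes `a e` and `b e`. -/
structure Net (N A : Type) where
  /-- first end node -/
  a : A → N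
  /-- second end node -/
  b : A → N
  /-- length of an arc -/
  len : A → ℕ
  /-- lengths are positive -/
  pos : ∀ e, 1 ≤ len e

namespace Net

variable {N A : Type} (R : Net N A)

/-- vertices of the graph of a network: `len e + 1` vertices for each arc `e` -/
abbrev Vert : Type := Σ e : A, Fin (R.len e + 1)

/-- the two end vertices of an arc -/
def endV (x : A × Bool) : R.Vert := ⟨x.1, if x.2 then Fin.last _ else 0⟩

/-- the node of an arc end -/
def node (x : A × Bool) : N := if x.2 then R.b x.1 else R.a x.1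

/-- ordered pairs of distinct arc ends at the same node -/
abbrev Thick : Type :=
  {p : (A × Bool) × (A × Bool) // p.1 ≠ p.2 ∧ R.node p.1 = R.node p.2}

/-- edges of the graph of a network -/
abbrev Edge (M : ℕ) : Type := (Σ e : A, Fin (R.len e)) ⊕ (R.Thick × Fin M)

lemma endV_injective : Function.Injective R.endV := by
  rintro ⟨e, c⟩ ⟨e', c'⟩ h
  simp only [endV, Sigma.mk.injEq] at h
  obtain ⟨rfl, h⟩ := h
  have h := eq_of_heq h
  have hp := R.pos e
  cases c <;> cases c' <;> simp only [Bool.false_eq_true, if_true, if_false] at h ⊢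
  · exfalso
    have := congrArg Fin.val h
    simp at this
    omega
  · exfalso
    have := congrArg Fin.val h
    simp at this
    omega

/-- The graph of a network: every arc `e` is a path with `len e` edges, and any two distinct arc
ends at the same node are joined by `2 M` parallel edges. -/
def graph (M : ℕ) : MGraph R.Vert (R.Edge M) where
  src := Sum.elim (fun t => ⟨t.1, t.2.castSucc⟩) (fun t => R.endV t.1.1.1)
  tgt := Sum.elim (fun t => ⟨t.1, t.2.succ⟩) (fun t => R.endV t.1.1.2)
  ne := by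
    rintro (⟨e, i⟩ | ⟨⟨⟨x, y⟩, hxy, hn⟩, m⟩)
    · simp only [Sum.elim_inl]
      intro h
      simp only [Sigma.mk.injEq, true_and] at h
      have := congrArg Fin.val (eq_of_heq h)
      simp at this
    · simp only [Sum.elim_inr]
      intro h
      exact hxy (R.endV_injective h)

variable [Fintype A] [DecidableEq A] [DecidableEq N]

/-- telescoping sum over a path -/
lemma sum_path (n : ℕ) (φ : Fin (n + 1) → ℤ) :
    ∑ i : Fin n, (φ i.succ - φ i.castSucc) = φ (Fin.last n) - φ 0 := by
  rw [Finset.sum_sub_distrib]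
  have h1 := Fin.sum_univ_succ φ
  have h2 := Fin.sum_univ_castSucc φ
  linarith

lemma lower (M : ℕ) (hM : Fintype.card A < M) (hg : (R.graph M).gon ≤ Fintype.card A) :
    ∃ s : A → ℤ, ∀ (e0 : A) (c : Bool), ∃ F : N → ℤ,
      s e0 + F (R.a e0) - F (R.b e0) = (if c then (R.len e0 : ℤ) else 0) ∧
      ∀ e, 0 ≤ s e + F (R.a e) - F (R.b e) ∧ s e + F (R.a e) - F (R.b e) ≤ R.len e := by
  classical
  obtain ⟨D, hD, hsum⟩ := (R.graph M).exists_gon
  have hdeg : ∑ v, D v ≤ (Fintype.card A : ℤ) := by
    rw [hsum]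
    exact_mod_cast hg
  have hdegM : ∑ v, D v < (M : ℤ) := by
    have : (Fintype.card A : ℤ) < M := by exact_mod_cast hM
    linarith
  -- the functions are constant on clusters
  have hconst : ∀ f : R.Vert → ℤ, (∀ v, 0 ≤ D v - (R.graph M).lap f v) →
      ∀ x y, R.node x = R.node y → f (R.endV x) = f (R.endV y) := by
    intro f hf x y hxy
    by_cases hne : x = y
    · rw [hne]
    · exact (R.graph M).thick_const D f hD.1 hf M hdegM _ _
        (fun i => Sum.inr (⟨(x, y), hne, hxy⟩, i))
        (fun i j h => by simpa using h) (fun i => ⟨rfl, rfl⟩)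
  -- weighted sums over one arc
  have hweight : ∀ (f : R.Vert → ℤ), (∀ v, 0 ≤ D v - (R.graph M).lap f v) → ∀ (e0 : A)
      (g : R.Vert → ℤ), ∑ v, g v * (R.graph M).lap f v =
        ∑ t : (Σ e : A, Fin (R.len e)), (g ⟨t.1, t.2.castSucc⟩ - g ⟨t.1, t.2.succ⟩) *
          (f ⟨t.1, t.2.castSucc⟩ - f ⟨t.1, t.2.succ⟩) := by
    intro f hf e0 g
    rw [MGraph.sum_mul_lap, Fintype.sum_sum_type]
    have : ∑ t : R.Thick × Fin M, (g ((R.graph M).src (Sum.inr t)) -
        g ((R.graph M).tgt (Sum.inr t))) * (f ((R.graph M).src (Sum.inr t)) -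
        f ((R.graph M).tgt (Sum.inr t))) = 0 := by
      refine Finset.sum_eq_zero fun t _ => ?_
      have h1 : f ((R.graph M).src (Sum.inr t)) = f ((R.graph M).tgt (Sum.inr t)) :=
        hconst f hf _ _ t.1.2.2
      rw [h1]
      ring
    rw [this, add_zero]
    rfl
  -- chips on an arc
  have harc0 : ∀ (f : R.Vert → ℤ), (∀ v, 0 ≤ D v - (R.graph M).lap f v) → ∀ (e0 : A),
      ∑ i : Fin (R.len e0 + 1), (R.graph M).lap f ⟨e0, i⟩ = 0 := by
    intro f hf e0
    have h1 := hweight f hf e0 (fun v => if v.1 = e0 then 1 else 0)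
    rw [Fintype.sum_sigma] at h1
    rw [Finset.sum_eq_single e0] at h1
    · simp only [if_true, one_mul, sub_self, zero_mul, Finset.sum_const_zero] at h1
      exact h1
    · intro b _ hb
      simp [hb]
    · simp
  have harc1 : ∀ (f : R.Vert → ℤ), (∀ v, 0 ≤ D v - (R.graph M).lap f v) → ∀ (e0 : A),
      ∑ i : Fin (R.len e0 + 1), (i.val : ℤ) * (R.graph M).lap f ⟨e0, i⟩ =
        f ⟨e0, Fin.last _⟩ - f ⟨e0, 0⟩ := by
    intro f hf e0
    have h1 := hweight f hf e0 (fun v => if v.1 = e0 then (v.2.val : ℤ) else 0)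
    rw [Fintype.sum_sigma, Fintype.sum_sigma] at h1
    rw [Finset.sum_eq_single e0, Finset.sum_eq_single e0] at h1
    · simp only [if_true] at h1
      rw [h1, ← sum_path (R.len e0) (fun i => f ⟨e0, i⟩)]
      refine Finset.sum_congr rfl fun i _ => ?_
      simp only [Fin.val_castSucc, Fin.val_succ]
      push_cast
      ring
    · intro b _ hb
      simp [hb]
    · simp
    · intro b _ hb
      simp [hb]
    · simp
  -- each arc carries exactly one chip
  have hfull : ∀ v, ∃ f : R.Vert → ℤ, (∀ w, 0 ≤ D w - (R.graph M).lap f w) ∧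
      1 ≤ D v - (R.graph M).lap f v := by
    intro v
    obtain ⟨f, hf⟩ := hD.2 v
    refine ⟨f, fun w => ?_, ?_⟩
    · have := hf w
      split_ifs at this <;> linarith
    · have := hf v
      simp only [if_true] at this
      linarith
  have hge : ∀ e, 1 ≤ ∑ i : Fin (R.len e + 1), D ⟨e, i⟩ := by
    intro e
    obtain ⟨f, hf, hf1⟩ := hfull ⟨e, 0⟩
    have h1 := harc0 f hf e
    have h2 : D ⟨e, 0⟩ - (R.graph M).lap f ⟨e, 0⟩ ≤
        ∑ i : Fin (R.len e + 1), (D ⟨e, i⟩ - (R.graph M).lap f ⟨e, i⟩) :=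
      Finset.single_le_sum (f := fun i : Fin (R.len e + 1) =>
        D ⟨e, i⟩ - (R.graph M).lap f ⟨e, i⟩) (fun i _ => hf _) (Finset.mem_univ 0)
    rw [Finset.sum_sub_distrib, h1] at h2
    linarith
  have hone : ∀ e, ∑ i : Fin (R.len e + 1), D ⟨e, i⟩ = 1 := by
    have h1 : ∑ e : A, (∑ i : Fin (R.len e + 1), D ⟨e, i⟩ - 1) ≤ 0 := by
      rw [Finset.sum_sub_distrib, ← Fintype.sum_sigma (fun v : R.Vert => D v)]
      simp only [Finset.sum_const, Finset.card_univ, nsmul_eq_mul, mul_one]
      linarith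
    have h2 : ∀ e ∈ (Finset.univ : Finset A), 0 ≤ ∑ i : Fin (R.len e + 1), D ⟨e, i⟩ - 1 := by
      intro e _
      have := hge e
      linarith
    have h3 := (Finset.sum_eq_zero_iff_of_nonneg h2).1 (le_antisymm h1 (Finset.sum_nonneg h2))
    intro e
    have := h3 e (Finset.mem_univ e)
    linarith
  refine ⟨fun e => ∑ i : Fin (R.len e + 1), (i.val : ℤ) * D ⟨e, i⟩, ?_⟩
  intro e0 c
  obtain ⟨f, hf, hf1⟩ := hfull (R.endV (e0, c))
  -- the node potential
  set F : N → ℤ := fun u => if h : ∃ x, R.node x = u then f (R.endV h.choose) else 0 with hF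
  have hFx : ∀ x, F (R.node x) = f (R.endV x) := by
    intro x
    have hex : ∃ y, R.node y = R.node x := ⟨x, rfl⟩
    simp only [hF, hex, dif_pos]
    exact hconst f hf _ _ hex.choose_spec
  have hFa : ∀ e, F (R.a e) = f ⟨e, 0⟩ := fun e => hFx (e, false)
  have hFb : ∀ e, F (R.b e) = f ⟨e, Fin.last _⟩ := fun e => hFx (e, true)
  set X : ∀ e, Fin (R.len e + 1) → ℤ := fun e i => D ⟨e, i⟩ - (R.graph M).lap f ⟨e, i⟩ with hX
  have hX0 : ∀ e i, 0 ≤ X e i := fun e i => hf _
  have hXsum : ∀ e, ∑ i, X e i = 1 := by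
    intro e
    simp only [hX]
    rw [Finset.sum_sub_distrib, harc0 f hf e, hone e]
    ring
  have hpos : ∀ e, ∑ i : Fin (R.len e + 1), (i.val : ℤ) * D ⟨e, i⟩ + F (R.a e) - F (R.b e) =
      ∑ i : Fin (R.len e + 1), (i.val : ℤ) * X e i := by
    intro e
    rw [hFa, hFb]
    simp only [hX, mul_sub]
    rw [Finset.sum_sub_distrib, harc1 f hf e]
    ring
  have hXe : ∀ e (j : Fin (R.len e + 1)), 1 ≤ X e j →
      ∑ i : Fin (R.len e + 1), (i.val : ℤ) * X e i = j.val := by
    intro e j hj
    have h1 : ∀ i, i ≠ j → X e i = 0 := by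
      intro i hij
      have h2 : X e i + X e j ≤ ∑ i, X e i := by
        have h3 : ∑ l ∈ ({i, j} : Finset (Fin (R.len e + 1))), X e l ≤ ∑ l, X e l :=
          Finset.sum_le_sum_of_subset_of_nonneg (Finset.subset_univ _) fun l _ _ => hX0 e l
        rwa [Finset.sum_pair hij] at h3
      rw [hXsum e] at h2
      have := hX0 e i
      linarith
    have h4 : X e j = 1 := by
      have := hXsum e
      rw [Finset.sum_eq_single j (fun i _ hi => h1 i hi) (by simp)] at this
      exact this
    rw [Finset.sum_eq_single j (fun i _ hi => by rw [h1 i hi, mul_zero]) (by simp), h4, mul_one]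
  refine ⟨F, ?_, fun e => ?_⟩
  · rw [hpos e0]
    have h1 : 1 ≤ X e0 (if c then Fin.last _ else 0) := hf1
    rw [hXe e0 _ h1]
    cases c <;> simp
  · rw [hpos e]
    constructor
    · exact Finset.sum_nonneg fun i _ => mul_nonneg (by positivity) (hX0 e i)
    · calc ∑ i : Fin (R.len e + 1), (i.val : ℤ) * X e i
          ≤ ∑ i : Fin (R.len e + 1), (R.len e : ℤ) * X e i := by
            refine Finset.sum_le_sum fun i _ => ?_
            have hi : (i.val : ℤ) ≤ R.len e := by
              have := i.isLt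
              exact_mod_cast Nat.lt_succ_iff.1 this
            exact mul_le_mul_of_nonneg_right hi (hX0 e i)
        _ = R.len e := by rw [← Finset.mul_sum, hXsum e, mul_one]

end Net

end Pool.Agent.H997R3.Gon
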