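import Pool.Agent.H997R3.Gon.Sub

/-!
# The gonality of a graph is at most twice the gonality of a uniform subdivision
-/

set_option autoImplicit false

namespace Pool.Agent.H997R3.Gon

open Finset

/-- discrete concavity with defects: if consecutive slopes grow by at most `d j`, then the total
drop is at most `k` times the first slope plus all defects -/
lemma drop_le (k : ℕ) (φ d : ℕ → ℤ) (hd : ∀ j, 0 ≤ d j)
    (h : ∀ j, j + 1 < k → (φ (j + 1) - φ (j + 2)) + (φ (j + 1) - φ j) ≤ d j) :
    φ 0 - φ k ≤ k * ((φ 0 - φ 1) + ∑ j ∈ range (k - 1), d j) := by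
  have h1 : ∀ i, i < k → φ i - φ (i + 1) ≤ (φ 0 - φ 1) + ∑ j ∈ range (k - 1), d j := by
    have h2 : ∀ i, i < k → φ i - φ (i + 1) ≤ (φ 0 - φ 1) + ∑ j ∈ range i, d j := by
      intro i
      induction i with
      | zero => intro _; simp
      | succ i ih =>
        intro hi
        have := ih (by omega)
        have h3 := h i hi
        rw [Finset.sum_range_succ]
        have e : i + 1 + 1 = i + 2 := rfl
        rw [e]
        linarith
    intro i hi
    refine (h2 i hi).trans ?_
    have : ∑ j ∈ range i, d j ≤ ∑ j ∈ range (k - 1), d j := by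
      apply Finset.sum_le_sum_of_subset_of_nonneg
      · intro x hx
        simp only [mem_range] at hx ⊢
        omega
      · intro x _ _
        exact hd x
    linarith
  have h4 : ∀ m, m ≤ k → φ 0 - φ m ≤ m * ((φ 0 - φ 1) + ∑ j ∈ range (k - 1), d j) := by
    intro m
    induction m with
    | zero => intro _; simp
    | succ m ih =>
      intro hm
      have := ih (by omega)
      have h5 := h1 m (by omega)
      push_cast
      linarith
  exact h4 k le_rfl

namespace MGraph

variable {V E : Type}

lemma gonSet_nonempty [Fintype V] [DecidableEq V] [Fintype E] (G : MGraph V E) :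
    {d : ℕ | ∃ D : V → ℤ, G.EffRankOne D ∧ ∑ v, D v = (d : ℤ)}.Nonempty := by
  refine ⟨Fintype.card V, fun _ => 1, ⟨fun _ => by norm_num, fun v => ⟨fun _ => 0, fun w => ?_⟩⟩,
    by simp⟩
  have : G.lap (fun _ => 0) w = 0 := by
    unfold lap
    simp
  rw [this]
  split_ifs <;> norm_num

lemma gon_le [Fintype V] [DecidableEq V] [Fintype E] (G : MGraph V E) (D : V → ℤ)
    (hD : G.EffRankOne D) (d : ℕ) (hd : ∑ v, D v ≤ (d : ℤ)) : G.gon ≤ d := by
  have h0 : 0 ≤ ∑ v, D v := Finset.sum_nonneg fun v _ => hD.1 v
  have h1 : G.gon ≤ (∑ v, D v).toNat := Nat.sInf_le ⟨D, hD, by rw [Int.toNat_of_nonneg h0]⟩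
  omega

lemma exists_gon [Fintype V] [DecidableEq V] [Fintype E] (G : MGraph V E) :
    ∃ D : V → ℤ, G.EffRankOne D ∧ ∑ v, D v = (G.gon : ℤ) :=
  Nat.sInf_mem (gonSet_nonempty G)

variable [Fintype V] [DecidableEq V] [DecidableEq E] [Fintype E]

/-- The gonality of a graph is at most twice that of any of its uniform subdivisions. -/
theorem gon_le_two_mul (G : MGraph V E) (k : ℕ) (hk : 1 ≤ k) :
    G.gon ≤ 2 * (G.subdiv k).gon := by
  obtain ⟨D, hD, hsum⟩ := (G.subdiv k).exists_gon
  have hkz : (0 : ℤ) < k := by exact_mod_cast hk
  set c : E → ℤ := fun e => ∑ j : Fin (k - 1), D (Sum.inr (e, j)) with hc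
  have hc0 : ∀ e, 0 ≤ c e := fun e => Finset.sum_nonneg fun j _ => hD.1 _
  have hDsum : ∑ v, D v = ∑ v : V, D (Sum.inl v) + ∑ e : E, c e := by
    rw [Fintype.sum_sum_type, Fintype.sum_prod_type]
  refine gon_le G (fun v => D (Sum.inl v) + ∑ e : E, ((if G.src e = v then c e else 0) +
    (if G.tgt e = v then c e else 0))) ⟨?_, ?_⟩ _ ?_
  · intro v
    refine add_nonneg (hD.1 _) (Finset.sum_nonneg fun e _ => ?_)
    have := hc0 e
    split_ifs <;> linarith
  · intro v
    obtain ⟨f, hf⟩ := hD.2 (Sum.inl v)
    refine ⟨fun x => f (Sum.inl x) / k, fun x => ?_⟩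
    have hx := hf (Sum.inl x)
    rw [lap_subdiv_inl G hk] at hx
    simp only [Sum.inl.injEq] at hx
    -- slope estimates
    have key : ∀ e, f (Sum.inl (G.src e)) - f (Sum.inl (G.tgt e)) ≤
        k * ((f (Sum.inl (G.src e)) - f (G.point k e 1)) + c e) ∧
        f (Sum.inl (G.tgt e)) - f (Sum.inl (G.src e)) ≤
        k * ((f (Sum.inl (G.tgt e)) - f (G.point k e (k - 1))) + c e) := by
      intro e
      have hin : ∀ j : Fin (k - 1), (f (G.point k e (j.val + 1)) - f (G.point k e (j.val + 2))) +
          (f (G.point k e (j.val + 1)) - f (G.point k e j.val)) ≤ D (Sum.inr (e, j)) := by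
        intro j
        have h1 := hf (Sum.inr (e, j))
        rw [lap_subdiv_inr, ← point_inner G e j] at h1
        rw [point_inner G e j] at h1
        rw [point_inner G e j]
        simp only [reduceCtorEq, if_false] at h1
        linarith
      set d : ℕ → ℤ := fun j => if h : j < k - 1 then D (Sum.inr (e, ⟨j, h⟩)) else 0 with hd
      have hd0 : ∀ j, 0 ≤ d j := by
        intro j
        simp only [hd]
        split_ifs
        · exact hD.1 _
        · exact le_rfl
      have hdc : ∑ j ∈ range (k - 1), d j = c e := by
        rw [hc, Finset.sum_range]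
        refine Finset.sum_congr rfl fun j _ => ?_
        simp [hd, j.isLt]
      constructor
      · have h2 := drop_le k (fun i => f (G.point k e i)) d hd0 (by
          intro j hj
          have hj' : j < k - 1 := by omega
          have := hin ⟨j, hj'⟩
          simp only [hd, hj', dif_pos]
          exact this)
        simp only [point_zero, point_last G hk, hdc] at h2
        exact h2
      · have h2 := drop_le k (fun i => f (G.point k e (k - i))) (fun j => d (k - 2 - j))
          (fun j => hd0 _) (by
          intro j hj
          have hj' : k - 2 - j < k - 1 := by omega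
          have h3 := hin ⟨k - 2 - j, hj'⟩
          have e1 : k - 2 - j + 1 = k - (j + 1) := by omega
          have e2 : k - 2 - j + 2 = k - j := by omega
          have e3 : k - 2 - j = k - (j + 2) := by omega
          simp only [hd, hj', dif_pos]
          simp only [e1, e2] at h3
          simp only [← e3]
          linarith)
        have hre : ∑ j ∈ range (k - 1), d (k - 2 - j) = c e := by
          rw [← hdc, ← Finset.sum_range_reflect]
          refine Finset.sum_congr rfl fun j hj => ?_
          simp only [mem_range] at hj
          congr 1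
          omega
        simp only [Nat.sub_zero, Nat.sub_self, point_zero, point_last G hk, hre] at h2
        exact h2
    have hfl : ∀ a b m : ℤ, a - b ≤ k * m → a / k - b / k ≤ m := by
      intro a b m h
      have h1 : a ≤ b + k * m := by linarith
      have h2 : a / k ≤ (b + k * m) / k := Int.ediv_le_ediv hkz h1
      rw [Int.add_mul_ediv_left _ _ (ne_of_gt hkz)] at h2
      linarith
    have hlap : G.lap (fun x => f (Sum.inl x) / k) x ≤
        ∑ e : E, (((if G.src e = x then f (Sum.inl x) - f (G.point k e 1) else 0) +
          (if G.tgt e = x then f (Sum.inl x) - f (G.point k e (k - 1)) else 0)) +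
          ((if G.src e = x then c e else 0) + (if G.tgt e = x then c e else 0))) := by
      unfold lap
      refine Finset.sum_le_sum fun e _ => ?_
      have hs : (if G.src e = x then f (Sum.inl x) / (k : ℤ) - f (Sum.inl (G.tgt e)) / k else 0) ≤
          (if G.src e = x then f (Sum.inl x) - f (G.point k e 1) else 0) +
            (if G.src e = x then c e else 0) := by
        by_cases h : G.src e = x
        · subst h
          simp only [if_true]
          exact hfl _ _ _ (key e).1
        · simp [h]
      have ht : (if G.tgt e = x then f (Sum.inl x) / (k : ℤ) - f (Sum.inl (G.src e)) / k else 0) ≤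
          (if G.tgt e = x then f (Sum.inl x) - f (G.point k e (k - 1)) else 0) +
            (if G.tgt e = x then c e else 0) := by
        by_cases h : G.tgt e = x
        · subst h
          simp only [if_true]
          exact hfl _ _ _ (key e).2
        · simp [h]
      linarith
    rw [Finset.sum_add_distrib] at hlap
    linarith
  · have h1 : ∑ v : V, (D (Sum.inl v) + ∑ e : E, ((if G.src e = v then c e else 0) +
        (if G.tgt e = v then c e else 0))) = ∑ v : V, D (Sum.inl v) + 2 * ∑ e : E, c e := by
      rw [Finset.sum_add_distrib, Finset.sum_comm, Finset.mul_sum]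
      congr 1
      refine Finset.sum_congr rfl fun e _ => ?_
      rw [Finset.sum_add_distrib]
      simp
      ring
    rw [h1]
    have h2 : 0 ≤ ∑ v : V, D (Sum.inl v) := Finset.sum_nonneg fun v _ => hD.1 _
    push_cast
    rw [← hsum, hDsum]
    linarith

end MGraph

end Pool.Agent.H997R3.Gon
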