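import Pool.Agent.H997R3.Gon.Defs

/-!
# The Laplacian of the uniform subdivision
-/

set_option autoImplicit false

namespace Pool.Agent.H997R3.Gon

open Finset

namespace MGraph

variable {V E : Type}

lemma point_eq_inl_iff (G : MGraph V E) {k : ℕ} (e : E) {i : ℕ} (_hi : i ≤ k) (v : V) :
    G.point k e i = Sum.inl v ↔ (i = 0 ∧ G.src e = v) ∨ (1 ≤ i ∧ i = k ∧ G.tgt e = v) := by
  unfold point
  by_cases h0 : i = 0
  · simp [h0]
  · by_cases h1 : i - 1 < k - 1
    · have : i ≠ k := by omega
      simp [h0, h1, this]
    · have h2 : i = k := by omega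
      have h3 : 1 ≤ i := by omega
      subst h2
      simp [h0, h3]

lemma point_eq_inr_iff (G : MGraph V E) {k : ℕ} (e : E) {i : ℕ} (hi : i ≤ k) (e' : E)
    (j : Fin (k - 1)) :
    G.point k e i = Sum.inr (e', j) ↔ e = e' ∧ i = j.val + 1 := by
  have hj := j.isLt
  unfold point
  by_cases h0 : i = 0
  · simp [h0]
  · by_cases h1 : i - 1 < k - 1
    · simp only [h0, if_false, h1, dif_pos, Sum.inr.injEq, Prod.mk.injEq, Fin.ext_iff]
      constructor
      · rintro ⟨a, b⟩
        exact ⟨a, by omega⟩
      · rintro ⟨a, b⟩
        exact ⟨a, by omega⟩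
    · simp only [h0, if_false, h1, dif_neg, not_false_eq_true, reduceCtorEq, false_iff, not_and]
      intro _
      omega

variable [DecidableEq V] [DecidableEq E] [Fintype E]

lemma lap_subdiv_inl (G : MGraph V E) {k : ℕ} (hk : 1 ≤ k)
    (f : V ⊕ (E × Fin (k - 1)) → ℤ) (v : V) :
    (G.subdiv k).lap f (Sum.inl v) =
      ∑ e : E, ((if G.src e = v then f (Sum.inl v) - f (G.point k e 1) else 0) +
        (if G.tgt e = v then f (Sum.inl v) - f (G.point k e (k - 1)) else 0)) := by
  unfold lap
  rw [Fintype.sum_prod_type]
  refine Finset.sum_congr rfl fun e _ => ?_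
  rw [Finset.sum_add_distrib]
  congr 1
  · rw [Finset.sum_eq_single (⟨0, by omega⟩ : Fin k)]
    · have h1 : (G.subdiv k).src (e, ⟨0, by omega⟩) = Sum.inl v ↔ G.src e = v := by
        simp only [subdiv, point_zero, Sum.inl.injEq]
      by_cases hv : G.src e = v
      · rw [if_pos (h1.2 hv), if_pos hv]
        simp only [subdiv, Nat.zero_add]
      · rw [if_neg (fun h => hv (h1.1 h)), if_neg hv]
    · intro b _ hb
      have hb0 : b.val ≠ 0 := by
        intro h
        exact hb (Fin.ext h)
      have hlt := b.isLt
      have : ¬ (G.subdiv k).src (e, b) = Sum.inl v := by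
        simp only [subdiv]
        rw [point_eq_inl_iff G e (le_of_lt b.isLt)]
        rintro (⟨h, _⟩ | ⟨_, h, _⟩) <;> omega
      simp [this]
    · simp
  · rw [Finset.sum_eq_single (⟨k - 1, by omega⟩ : Fin k)]
    · have hk1 : k - 1 + 1 = k := by omega
      have h1 : (G.subdiv k).tgt (e, ⟨k - 1, by omega⟩) = Sum.inl v ↔ G.tgt e = v := by
        simp only [subdiv, hk1, point_last G hk, Sum.inl.injEq]
      by_cases hv : G.tgt e = v
      · rw [if_pos (h1.2 hv), if_pos hv]
        simp only [subdiv]
      · rw [if_neg (fun h => hv (h1.1 h)), if_neg hv]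
    · intro b _ hb
      have hb0 : b.val ≠ k - 1 := by
        intro h
        exact hb (Fin.ext h)
      have hlt := b.isLt
      have : ¬ (G.subdiv k).tgt (e, b) = Sum.inl v := by
        simp only [subdiv]
        rw [point_eq_inl_iff G e (by omega)]
        rintro (⟨h, _⟩ | ⟨_, h, _⟩) <;> omega
      simp [this]
    · simp

lemma lap_subdiv_inr (G : MGraph V E) {k : ℕ}
    (f : V ⊕ (E × Fin (k - 1)) → ℤ) (e : E) (j : Fin (k - 1)) :
    (G.subdiv k).lap f (Sum.inr (e, j)) =
      (f (Sum.inr (e, j)) - f (G.point k e (j.val + 2))) +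
        (f (Sum.inr (e, j)) - f (G.point k e j.val)) := by
  have hj := j.isLt
  unfold lap
  rw [Fintype.sum_prod_type]
  rw [Finset.sum_eq_single e]
  · rw [Finset.sum_add_distrib]
    congr 1
    · rw [Finset.sum_eq_single (⟨j.val + 1, by omega⟩ : Fin k)]
      · have : (G.subdiv k).src (e, ⟨j.val + 1, by omega⟩) = Sum.inr (e, j) := by
          simp only [subdiv]
          exact point_inner G e j
        rw [if_pos this]
        simp only [subdiv]
      · intro b _ hb
        have hb0 : b.val ≠ j.val + 1 := by
          intro h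
          exact hb (Fin.ext h)
        have : ¬ (G.subdiv k).src (e, b) = Sum.inr (e, j) := by
          simp only [subdiv]
          rw [point_eq_inr_iff G e (le_of_lt b.isLt)]
          rintro ⟨_, h⟩
          omega
        simp [this]
      · simp
    · rw [Finset.sum_eq_single (⟨j.val, by omega⟩ : Fin k)]
      · have : (G.subdiv k).tgt (e, ⟨j.val, by omega⟩) = Sum.inr (e, j) := by
          simp only [subdiv]
          exact point_inner G e j
        rw [if_pos this]
        simp only [subdiv]
      · intro b _ hb
        have hb0 : b.val ≠ j.val := by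
          intro h
          exact hb (Fin.ext h)
        have hlt := b.isLt
        have : ¬ (G.subdiv k).tgt (e, b) = Sum.inr (e, j) := by
          simp only [subdiv]
          rw [point_eq_inr_iff G e (by omega)]
          rintro ⟨_, h⟩
          omega
        simp [this]
      · simp
  · intro e' _ he'
    refine Finset.sum_eq_zero fun b _ => ?_
    have hlt := b.isLt
    have h1 : ¬ (G.subdiv k).src (e', b) = Sum.inr (e, j) := by
      simp only [subdiv]
      rw [point_eq_inr_iff G e' (le_of_lt b.isLt)]
      rintro ⟨h, _⟩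
      exact he' h
    have h2 : ¬ (G.subdiv k).tgt (e', b) = Sum.inr (e, j) := by
      simp only [subdiv]
      rw [point_eq_inr_iff G e' (by omega)]
      rintro ⟨h, _⟩
      exact he' h
    simp [h1, h2]
  · simp

end MGraph

end Pool.Agent.H997R3.Gon
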