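import Pool.Agent.H997R3.Gon.Net

/-!
# Networks of arcs with thick clusters: upper bound for the gonality of subdivisions
-/

set_option autoImplicit false

namespace Pool.Agent.H997R3.Gon

open Finset

lemma sum_boole_le_one {α : Type} [Fintype α] (g : α → ℤ) (hg : Function.Injective g) (s : ℤ) :
    ∑ x, (if g x = s then (1 : ℤ) else 0) ≤ 1 := by
  classical
  rw [Finset.sum_boole]
  have : (Finset.univ.filter fun x => g x = s).card ≤ 1 := by
    rw [Finset.card_le_one]
    intro x hx y hy
    simp only [mem_filter, mem_univ, true_and] at hx hy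
    exact hg (hx.trans hy.symm)
  exact_mod_cast this

lemma divmod_unique (k : ℤ) (x y r t : ℤ) (hr : 0 ≤ r) (hrk : r < k) (ht : 0 ≤ t) (htk : t < k)
    (h : k * x + r = k * y + t) : x = y ∧ r = t := by
  have hxy : x = y := by
    rcases lt_trichotomy x y with hlt | heq | hgt
    · nlinarith
    · exact heq
    · nlinarith
  subst hxy
  exact ⟨rfl, by linarith⟩

namespace Net

variable {N A : Type} (R : Net N A)

/-- positions of the vertices of one subdivided arc -/
def posn (k L : ℕ) : (Fin (L + 1)) ⊕ (Fin L × Fin (k - 1)) → ℤ :=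
  Sum.elim (fun i => k * (i.val : ℤ)) (fun x => k * (x.1.val : ℤ) + (x.2.val : ℤ) + 1)

lemma posn_injective (k L : ℕ) (hk : 1 ≤ k) : Function.Injective (posn k L) := by
  have hkz : (1 : ℤ) ≤ k := by exact_mod_cast hk
  rintro (i | ⟨i, j⟩) (i' | ⟨i', j'⟩) h
  · simp only [posn, Sum.elim_inl] at h
    have := divmod_unique k i.val i'.val 0 0 le_rfl (by linarith) le_rfl (by linarith) (by linarith)
    have h1 : i.val = i'.val := by exact_mod_cast this.1
    rw [Fin.ext h1]
  · exfalso
    simp only [posn, Sum.elim_inl, Sum.elim_inr] at h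
    have hj := j'.isLt
    have := divmod_unique k i.val i'.val 0 (j'.val + 1) le_rfl (by linarith) (by positivity)
      (by omega) (by linarith)
    have h2 := this.2
    omega
  · exfalso
    simp only [posn, Sum.elim_inl, Sum.elim_inr] at h
    have hj := j.isLt
    have := divmod_unique k i.val i'.val (j.val + 1) 0 (by positivity) (by omega) le_rfl
      (by linarith) (by linarith)
    have h2 := this.2
    omega
  · simp only [posn, Sum.elim_inr] at h
    have hj := j.isLt
    have hj' := j'.isLt
    have := divmod_unique k i.val i'.val (j.val + 1) (j'.val + 1) (by positivity) (by omega)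
      (by positivity) (by omega) (by linarith)
    have h1 : i.val = i'.val := by exact_mod_cast this.1
    have h2 : j.val = j'.val := by have := this.2; omega
    rw [Fin.ext h1, Fin.ext h2]

/-- a function on the vertices of the subdivided graph, from functions of the position on each
arc and a function on the new vertices of the thick edges -/
def ext (M k : ℕ) (h : A → ℤ → ℤ) (c : R.Thick × Fin M → ℕ → ℤ) :
    R.Vert ⊕ (R.Edge M × Fin (k - 1)) → ℤ :=
  Sum.elim (fun v => h v.1 (k * (v.2.val : ℤ)))
    (fun x => Sum.elim (fun t => h t.1 (k * (t.2.val : ℤ) + (x.2.val : ℤ) + 1))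
      (fun t => c t (x.2.val + 1)) x.1)

lemma ext_point_thin (M k : ℕ) (hk : 1 ≤ k) (h : A → ℤ → ℤ) (c : R.Thick × Fin M → ℕ → ℤ)
    (e : A) (i : Fin (R.len e)) (j : ℕ) (hj : j ≤ k) :
    R.ext M k h c ((R.graph M).point k (Sum.inl ⟨e, i⟩) j) = h e (k * (i.val : ℤ) + j) := by
  rcases Nat.eq_zero_or_pos j with h0 | h0
  · subst h0
    rw [MGraph.point_zero]
    simp [ext, graph]
  · rcases Nat.lt_or_ge j k with h1 | h1
    · have h2 : j - 1 < k - 1 := by omega
      have h3 := MGraph.point_inner (R.graph M) (k := k) (Sum.inl ⟨e, i⟩) ⟨j - 1, h2⟩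
      have h4 : j - 1 + 1 = j := by omega
      simp only [h4] at h3
      rw [h3]
      simp only [ext, Sum.elim_inr, Sum.elim_inl]
      congr 1
      have h5 : ((j - 1 : ℕ) : ℤ) = (j : ℤ) - 1 := by omega
      rw [h5]
      ring
    · have h2 : j = k := by omega
      subst h2
      rw [MGraph.point_last _ hk]
      simp only [ext, graph, Sum.elim_inl, Fin.val_succ]
      have h5 : (j : ℤ) * ((i.val + 1 : ℕ) : ℤ) = (j : ℤ) * (i.val : ℤ) + (j : ℤ) := by
        push_cast
        ring
      rw [h5]

lemma ext_point_thick (M k : ℕ) (hk : 1 ≤ k) (h : A → ℤ → ℤ) (c : R.Thick × Fin M → ℕ → ℤ)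
    (t : R.Thick × Fin M) (hc0 : h t.1.1.1.1 (if t.1.1.1.2 then k * (R.len t.1.1.1.1 : ℤ) else 0) = c t 0)
    (hck : h t.1.1.2.1 (if t.1.1.2.2 then k * (R.len t.1.1.2.1 : ℤ) else 0) = c t k)
    (j : ℕ) (hj : j ≤ k) :
    R.ext M k h c ((R.graph M).point k (Sum.inr t) j) = c t j := by
  rcases Nat.eq_zero_or_pos j with h0 | h0
  · subst h0
    rw [MGraph.point_zero, ← hc0]
    simp only [ext, graph, Sum.elim_inl, Sum.elim_inr, endV]
    congr 1
    split_ifs <;> simp
  · rcases Nat.lt_or_ge j k with h1 | h1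
    · have h2 : j - 1 < k - 1 := by omega
      have h3 := MGraph.point_inner (R.graph M) (k := k) (Sum.inr t) ⟨j - 1, h2⟩
      have h4 : j - 1 + 1 = j := by omega
      simp only [h4] at h3
      rw [h3]
      simp only [ext, Sum.elim_inr, h4]
    · have h2 : j = k := by omega
      subst h2
      rw [MGraph.point_last _ hk, ← hck]
      simp only [ext, graph, Sum.elim_inl, Sum.elim_inr, endV]
      congr 1
      split_ifs <;> simp

variable [Fintype A] [DecidableEq A] [DecidableEq N]

instance instDecEdge (M : ℕ) : DecidableEq (R.Edge M) := inferInstance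

omit [DecidableEq N] in
/-- contribution of the thin edges to the Laplacian at an original vertex -/
lemma sum_thin (M k : ℕ) (hk : 1 ≤ k) (h : A → ℤ → ℤ) (c : R.Thick × Fin M → ℕ → ℤ)
    (e : A) (i : Fin (R.len e + 1)) :
    ∑ t : (Σ e : A, Fin (R.len e)),
      ((if (R.graph M).src (Sum.inl t) = (⟨e, i⟩ : R.Vert) then
          R.ext M k h c (Sum.inl ⟨e, i⟩) - R.ext M k h c ((R.graph M).point k (Sum.inl t) 1)
        else 0) +
      (if (R.graph M).tgt (Sum.inl t) = (⟨e, i⟩ : R.Vert) then
          R.ext M k h c (Sum.inl ⟨e, i⟩) - R.ext M k h c ((R.graph M).point k (Sum.inl t) (k - 1))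
        else 0)) =
      (if i.val < R.len e then h e (k * (i.val : ℤ)) - h e (k * (i.val : ℤ) + 1) else 0) +
      (if 1 ≤ i.val then h e (k * (i.val : ℤ)) - h e (k * (i.val : ℤ) - 1) else 0) := by
  rw [Fintype.sum_sigma]
  rw [Finset.sum_eq_single e]
  · rw [Finset.sum_add_distrib]
    have hv : R.ext M k h c (Sum.inl ⟨e, i⟩) = h e (k * (i.val : ℤ)) := rfl
    congr 1
    · by_cases hi : i.val < R.len e
      · rw [if_pos hi, Finset.sum_eq_single (⟨i.val, hi⟩ : Fin (R.len e))]
        · rw [if_pos (by simp [graph]), hv, R.ext_point_thin M k hk h c e _ 1 hk]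
          simp
        · intro b _ hb
          rw [if_neg]
          intro h'
          simp only [graph, Sum.elim_inl, Sigma.mk.injEq, heq_eq_eq, true_and] at h'
          apply hb
          have := congrArg Fin.val h'
          exact Fin.ext this
        · simp
      · rw [if_neg hi]
        refine Finset.sum_eq_zero fun b _ => ?_
        rw [if_neg]
        intro h'
        simp only [graph, Sum.elim_inl, Sigma.mk.injEq, heq_eq_eq, true_and] at h'
        have := congrArg Fin.val h'
        simp only [Fin.val_castSucc] at this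
        have hb := b.isLt
        omega
    · have hk1 : ((k - 1 : ℕ) : ℤ) = (k : ℤ) - 1 := by omega
      by_cases hi : 1 ≤ i.val
      · have hil := i.isLt
        rw [if_pos hi, Finset.sum_eq_single (⟨i.val - 1, by omega⟩ : Fin (R.len e))]
        · rw [if_pos, hv, R.ext_point_thin M k hk h c e _ (k - 1) (by omega), hk1]
          · have h1 : ((i.val - 1 : ℕ) : ℤ) = (i.val : ℤ) - 1 := by omega
            simp only [h1]
            congr 2
            ring
          · simp only [graph, Sum.elim_inl, Sigma.mk.injEq, heq_eq_eq, true_and]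
            apply Fin.ext
            simp only [Fin.val_succ]
            omega
        · intro b _ hb
          rw [if_neg]
          intro h'
          simp only [graph, Sum.elim_inl, Sigma.mk.injEq, heq_eq_eq, true_and] at h'
          apply hb
          have := congrArg Fin.val h'
          simp only [Fin.val_succ] at this
          apply Fin.ext
          simp only
          omega
        · simp
      · rw [if_neg hi]
        refine Finset.sum_eq_zero fun b _ => ?_
        rw [if_neg]
        intro h'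
        simp only [graph, Sum.elim_inl, Sigma.mk.injEq, heq_eq_eq, true_and] at h'
        have := congrArg Fin.val h'
        simp only [Fin.val_succ] at this
        omega
  · intro b _ hb
    refine Finset.sum_eq_zero fun x _ => ?_
    rw [if_neg, if_neg, add_zero]
    · intro h'
      simp only [graph, Sum.elim_inl, Sigma.mk.injEq] at h'
      exact hb h'.1
    · intro h'
      simp only [graph, Sum.elim_inl, Sigma.mk.injEq] at h'
      exact hb h'.1
  · simp

/-- potential on an arc moving the chip from position `s` to position `s'` -/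
def hpot (Fa s s' : ℤ) (P : ℤ) : ℤ := Fa - min P s' + min P s

/-- a tent function -/
def tent (k q0 q : ℤ) : ℤ := min (min q (k - q)) (min q0 (k - q0))

lemma sum_dist (M k : ℕ) (hk : 1 ≤ k) (s : A → ℤ) :
    ∑ v, R.ext M k (fun e P => if P = s e then 1 else 0) (fun _ _ => 0) v ≤ Fintype.card A := by
  rw [Fintype.sum_sum_type, Fintype.sum_prod_type, Fintype.sum_sum_type, Fintype.sum_sigma,
    Fintype.sum_sigma]
  simp only [ext, Sum.elim_inl, Sum.elim_inr, Finset.sum_const_zero, add_zero]
  rw [← Finset.sum_add_distrib]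
  have h1 : ∀ e : A, (∑ i : Fin (R.len e + 1), (if (k : ℤ) * (i.val : ℤ) = s e then (1 : ℤ) else 0))
      + ∑ i : Fin (R.len e), ∑ j : Fin (k - 1),
        (if (k : ℤ) * (i.val : ℤ) + (j.val : ℤ) + 1 = s e then (1 : ℤ) else 0) ≤ 1 := by
    intro e
    have := sum_boole_le_one (posn k (R.len e)) (posn_injective k (R.len e) hk) (s e)
    rw [Fintype.sum_sum_type, Fintype.sum_prod_type] at this
    exact this
  calc _ ≤ ∑ e : A, (1 : ℤ) := Finset.sum_le_sum fun e _ => h1 e
    _ = Fintype.card A := by simp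

lemma mul_le_aux (k : ℕ) (x L : ℕ) (h : x < L) : (k : ℤ) * (x : ℤ) + k ≤ k * (L : ℤ) := by
  have h1 : (x : ℤ) + 1 ≤ L := by exact_mod_cast h
  have h2 : (0 : ℤ) ≤ k := by positivity
  nlinarith

/-- the Laplacian at a new vertex of a thin edge -/
lemma lap_thin_inner (M k : ℕ) (F s : A → ℤ) (s' : A → ℤ)
    (c : R.Thick × Fin M → ℕ → ℤ) (e : A) (i : Fin (R.len e)) (j : Fin (k - 1)) :
    ((R.graph M).subdiv k).lap (R.ext M k (fun e P => hpot (F e) (s e) (s' e) P) c)
      (Sum.inr (Sum.inl ⟨e, i⟩, j)) =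
      (if (k : ℤ) * (i.val : ℤ) + (j.val : ℤ) + 1 = s e then 1 else 0) -
      (if (k : ℤ) * (i.val : ℤ) + (j.val : ℤ) + 1 = s' e then 1 else 0) := by
  have hj := j.isLt
  rw [MGraph.lap_subdiv_inr, R.ext_point_thin M k (by omega) _ c e i (j.val + 2) (by omega),
    R.ext_point_thin M k (by omega) _ c e i j.val (by omega)]
  have hv : R.ext M k (fun e P => hpot (F e) (s e) (s' e) P) c (Sum.inr (Sum.inl ⟨e, i⟩, j)) =
    hpot (F e) (s e) (s' e) ((k : ℤ) * (i.val : ℤ) + (j.val : ℤ) + 1) := rfl
  rw [hv]
  simp only [hpot]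
  push_cast
  generalize (k : ℤ) * (i.val : ℤ) = Q
  generalize (j.val : ℤ) = J
  split_ifs <;> omega

/-- the Laplacian at an original vertex -/
lemma lap_orig (M k : ℕ) (hk : 1 ≤ k) (F : N → ℤ) (s : A → ℤ)
    (hs : ∀ e, 0 ≤ s e ∧ s e ≤ k * (R.len e : ℤ))
    (hs' : ∀ e, 0 ≤ s e + F (R.a e) - F (R.b e) ∧ s e + F (R.a e) - F (R.b e) ≤ k * (R.len e : ℤ))
    (c : R.Thick × Fin M → ℕ → ℤ) (hc0 : ∀ t, c t 0 = F (R.node t.1.1.1))
    (hck : ∀ t, c t k = F (R.node t.1.1.2)) (e : A) (i : Fin (R.len e + 1)) :
    ((R.graph M).subdiv k).lap (R.ext M k (fun e P => hpot (F (R.a e)) (s e)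
      (s e + F (R.a e) - F (R.b e)) P) c) (Sum.inl ⟨e, i⟩) =
      ((if (k : ℤ) * (i.val : ℤ) = s e then 1 else 0) -
      (if (k : ℤ) * (i.val : ℤ) = s e + F (R.a e) - F (R.b e) then 1 else 0)) +
      ∑ t, ((if (R.graph M).src (Sum.inr t) = ⟨e, i⟩ then c t 0 - c t 1 else 0) +
        (if (R.graph M).tgt (Sum.inr t) = ⟨e, i⟩ then c t k - c t (k - 1) else 0)) := by
  set h : A → ℤ → ℤ := fun e P => hpot (F (R.a e)) (s e) (s e + F (R.a e) - F (R.b e)) P with hh
  have hend : ∀ x : A × Bool,
      h x.1 (if x.2 then k * (R.len x.1 : ℤ) else 0) = F (R.node x) := by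
    rintro ⟨e, b⟩
    have h1 := hs e
    have h2 := hs' e
    cases b
    · simp only [hh, hpot, node, Bool.false_eq_true, if_false]
      omega
    · simp only [hh, hpot, node, if_true]
      generalize (k : ℤ) * (R.len e : ℤ) = Q at *
      omega
  have hpt : ∀ t j, j ≤ k → R.ext M k h c ((R.graph M).point k (Sum.inr t) j) = c t j := by
    intro t j hj
    refine R.ext_point_thick M k hk h c t ?_ ?_ j hj
    · rw [hend, hc0]
    · rw [hend, hck]
  rw [MGraph.lap_subdiv_inl _ hk, Fintype.sum_sum_type, R.sum_thin M k hk h c e i]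
  congr 1
  · have hil := i.isLt
    have h1 := hs e
    have h2 := hs' e
    have hkz : (1 : ℤ) ≤ k := by exact_mod_cast hk
    have hLz := mul_le_aux k
    simp only [hh, hpot]
    rcases Nat.eq_zero_or_pos i.val with h0 | h0
    · have hp := R.pos e
      have h3 : i.val < R.len e := by omega
      have h4 : ¬ 1 ≤ i.val := by omega
      rw [if_pos h3, if_neg h4, h0]
      push_cast
      rw [mul_zero]
      have h5 : (1 : ℤ) ≤ k * (R.len e : ℤ) := by
        have := mul_le_aux k 0 (R.len e) (by omega)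
        push_cast at this
        linarith
      generalize (k : ℤ) * (R.len e : ℤ) = Q at *
      split_ifs <;> omega
    · rcases Nat.lt_or_ge i.val (R.len e) with h3 | h3
      · rw [if_pos h3, if_pos (by omega)]
        have h5 := mul_le_aux k i.val (R.len e) h3
        have h6 : (0 : ℤ) ≤ k * (i.val : ℤ) := by positivity
        generalize (k : ℤ) * (R.len e : ℤ) = Q at *
        generalize (k : ℤ) * (i.val : ℤ) = W at *
        split_ifs <;> omega
      · have h4 : i.val = R.len e := by omega
        rw [if_neg (by omega), if_pos (by omega), h4]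
        generalize (k : ℤ) * (R.len e : ℤ) = Q at *
        split_ifs <;> omega
  · refine Finset.sum_congr rfl fun t _ => ?_
    congr 1
    · by_cases h1 : (R.graph M).src (Sum.inr t) = (⟨e, i⟩ : R.Vert)
      · rw [if_pos h1, if_pos h1, hpt t 1 hk, ← h1, ← hpt t 0 (by omega), MGraph.point_zero]
      · rw [if_neg h1, if_neg h1]
    · by_cases h1 : (R.graph M).tgt (Sum.inr t) = (⟨e, i⟩ : R.Vert)
      · rw [if_pos h1, if_pos h1, hpt t (k - 1) (by omega), ← h1, ← hpt t k le_rfl,
          MGraph.point_last _ hk]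
      · rw [if_neg h1, if_neg h1]

lemma tent_bounds (k q0 : ℤ) (h1 : 1 ≤ q0) (h2 : q0 + 1 ≤ k) :
    tent k q0 0 = 0 ∧ tent k q0 k = 0 ∧ tent k q0 1 ≤ 1 ∧ tent k q0 (k - 1) ≤ 1 ∧
      0 ≤ tent k q0 1 ∧ 0 ≤ tent k q0 (k - 1) ∧
      (∀ q, tent k q0 (q + 1) + tent k q0 (q - 1) ≤ 2 * tent k q0 q) ∧
      tent k q0 (q0 + 1) + tent k q0 (q0 - 1) + 1 ≤ 2 * tent k q0 q0 := by
  simp only [tent]
  refine ⟨by omega, by omega, by omega, by omega, by omega, by omega, fun q => by omega, by omega⟩

/-- the upper bound for the gonality of a subdivision of the graph of a network -/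
theorem upper (M k : ℕ) (hk : 2 ≤ k) (s : A → ℤ)
    (hs : ∀ e, 0 ≤ s e ∧ s e ≤ k * (R.len e : ℤ))
    (hcov : ∀ (e0 : A) (p : ℤ), 0 ≤ p → p ≤ k * (R.len e0 : ℤ) → ∃ F : N → ℤ,
      s e0 + F (R.a e0) - F (R.b e0) = p ∧
      ∀ e, 0 ≤ s e + F (R.a e) - F (R.b e) ∧ s e + F (R.a e) - F (R.b e) ≤ k * (R.len e : ℤ))
    (hnode : ∀ u : N, ∃ F : N → ℤ,
      (∀ e, 0 ≤ s e + F (R.a e) - F (R.b e) ∧ s e + F (R.a e) - F (R.b e) ≤ k * (R.len e : ℤ)) ∧
      (∀ e, R.a e = u → s e + F (R.a e) - F (R.b e) = 0) ∧
      (∀ e, R.b e = u → s e + F (R.a e) - F (R.b e) = k * (R.len e : ℤ))) :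
    ((R.graph M).subdiv k).gon ≤ Fintype.card A := by
  have hk1 : 1 ≤ k := by omega
  have hkz : (2 : ℤ) ≤ k := by exact_mod_cast hk
  refine MGraph.gon_le _ (R.ext M k (fun e P => if P = s e then 1 else 0) (fun _ _ => 0))
    ⟨?_, ?_⟩ _ (R.sum_dist M k hk1 s)
  · rintro (⟨e, i⟩ | ⟨(⟨e, i⟩ | t), j⟩)
    · simp only [ext, Sum.elim_inl]
      split_ifs <;> norm_num
    · simp only [ext, Sum.elim_inl, Sum.elim_inr]
      split_ifs <;> norm_num
    · simp only [ext, Sum.elim_inr]
      norm_num
  -- the easy case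
  have hmain : ∀ F : N → ℤ, (∀ e, 0 ≤ s e + F (R.a e) - F (R.b e) ∧
      s e + F (R.a e) - F (R.b e) ≤ k * (R.len e : ℤ)) → ∀ w,
      R.ext M k (fun e P => if P = s e then 1 else 0) (fun _ _ => 0) w -
        ((R.graph M).subdiv k).lap (R.ext M k (fun e P => hpot (F (R.a e)) (s e)
          (s e + F (R.a e) - F (R.b e)) P) (fun t _ => F (R.node t.1.1.1))) w =
      R.ext M k (fun e P => if P = s e + F (R.a e) - F (R.b e) then 1 else 0) (fun _ _ => 0) w := by
    intro F hF w
    rcases w with ⟨e, i⟩ | ⟨(⟨e, i⟩ | t), j⟩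
    · rw [R.lap_orig M k hk1 F s hs hF _ (fun t => rfl) (fun t => by rw [t.1.2.2]) e i]
      simp only [ext, Sum.elim_inl, sub_self, ite_self, add_zero, Finset.sum_const_zero]
      ring
    · rw [R.lap_thin_inner M k (fun e => F (R.a e)) s (fun e => s e + F (R.a e) - F (R.b e)) _ e i j]
      simp only [ext, Sum.elim_inl, Sum.elim_inr]
      ring
    · rw [MGraph.lap_subdiv_inr]
      have hj := j.isLt
      have hend : ∀ x : A × Bool, hpot (F (R.a x.1)) (s x.1) (s x.1 + F (R.a x.1) - F (R.b x.1))
          (if x.2 then k * (R.len x.1 : ℤ) else 0) = F (R.node x) := by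
        rintro ⟨e, b⟩
        have h1 := hs e
        have h2 := hF e
        cases b
        · simp only [hpot, node, Bool.false_eq_true, if_false]
          omega
        · simp only [hpot, node, if_true]
          generalize (k : ℤ) * (R.len e : ℤ) = Q at *
          omega
      have hpt : ∀ j, j ≤ k → R.ext M k (fun e P => hpot (F (R.a e)) (s e)
          (s e + F (R.a e) - F (R.b e)) P) (fun t _ => F (R.node t.1.1.1))
          ((R.graph M).point k (Sum.inr t) j) = F (R.node t.1.1.1) := by
        intro j hj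
        refine R.ext_point_thick M k hk1 _ (fun t _ => F (R.node t.1.1.1)) t ?_ ?_ j hj
        · exact hend _
        · rw [t.1.2.2]
          exact hend _
      rw [hpt _ (by omega), hpt _ (by omega)]
      simp only [ext, Sum.elim_inr]
      ring
  have hext0 : ∀ (g : A → ℤ) w, 0 ≤ R.ext M k (fun e P => if P = g e then (1 : ℤ) else 0)
      (fun _ _ => 0) w := by
    intro g w
    rcases w with ⟨e, i⟩ | ⟨(⟨e, i⟩ | t), j⟩
    · simp only [ext, Sum.elim_inl]
      split_ifs <;> norm_num
    · simp only [ext, Sum.elim_inl, Sum.elim_inr]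
      split_ifs <;> norm_num
    · simp only [ext, Sum.elim_inr]
      norm_num
  rintro (⟨e, i⟩ | ⟨(⟨e, i⟩ | t0), j⟩)
  · have hi : (k : ℤ) * (i.val : ℤ) ≤ k * (R.len e : ℤ) := by
      have h1 : (i.val : ℤ) ≤ R.len e := by
        have := i.isLt
        exact_mod_cast Nat.lt_succ_iff.1 this
      nlinarith
    obtain ⟨F, hF1, hF⟩ := hcov e (k * (i.val : ℤ)) (by positivity) hi
    refine ⟨R.ext M k (fun e P => hpot (F (R.a e)) (s e)
      (s e + F (R.a e) - F (R.b e)) P) (fun t _ => F (R.node t.1.1.1)), fun w => ?_⟩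
    have h1 := hmain F hF w
    have h2 := hext0 (fun e => s e + F (R.a e) - F (R.b e)) w
    by_cases hw : w = Sum.inl ⟨e, i⟩
    · subst hw
      rw [if_pos rfl]
      have h3 : R.ext M k (fun e P => if P = s e + F (R.a e) - F (R.b e) then (1 : ℤ) else 0)
          (fun _ _ => 0) (Sum.inl ⟨e, i⟩) = 1 := by
        simp only [ext, Sum.elim_inl]
        rw [if_pos hF1.symm]
      linarith
    · rw [if_neg hw]
      linarith
  · have hj := j.isLt
    have hi : (k : ℤ) * (i.val : ℤ) + (j.val : ℤ) + 1 ≤ k * (R.len e : ℤ) := by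
      have h1 := mul_le_aux k i.val (R.len e) i.isLt
      omega
    obtain ⟨F, hF1, hF⟩ := hcov e (k * (i.val : ℤ) + (j.val : ℤ) + 1) (by positivity) hi
    refine ⟨R.ext M k (fun e P => hpot (F (R.a e)) (s e)
      (s e + F (R.a e) - F (R.b e)) P) (fun t _ => F (R.node t.1.1.1)), fun w => ?_⟩
    have h1 := hmain F hF w
    have h2 := hext0 (fun e => s e + F (R.a e) - F (R.b e)) w
    by_cases hw : w = Sum.inr (Sum.inl ⟨e, i⟩, j)
    · subst hw
      rw [if_pos rfl]
      have h3 : R.ext M k (fun e P => if P = s e + F (R.a e) - F (R.b e) then (1 : ℤ) else 0)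
          (fun _ _ => 0) (Sum.inr (Sum.inl ⟨e, i⟩, j)) = 1 := by
        simp only [ext, Sum.elim_inl, Sum.elim_inr]
        rw [if_pos hF1.symm]
      linarith
    · rw [if_neg hw]
      linarith
  · have hj := j.isLt
    obtain ⟨F, hF, hFa, hFb⟩ := hnode (R.node t0.1.1.1)
    obtain ⟨T0, Tk, T1, Tk1, T1', Tk1', Tc, Tq⟩ :=
      tent_bounds (k : ℤ) ((j.val : ℤ) + 1) (by omega) (by omega)
    set q0 : ℤ := (j.val : ℤ) + 1 with hq0
    set c : R.Thick × Fin M → ℕ → ℤ :=
      fun t q => F (R.node t.1.1.1) - (if t = t0 then tent k q0 q else 0) with hc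
    have hc0 : ∀ t, c t 0 = F (R.node t.1.1.1) := by
      intro t
      simp only [hc]
      push_cast
      rw [T0]
      simp
    have hck : ∀ t, c t k = F (R.node t.1.1.2) := by
      intro t
      simp only [hc]
      rw [Tk, ← t.1.2.2]
      simp
    refine ⟨R.ext M k (fun e P => hpot (F (R.a e)) (s e)
      (s e + F (R.a e) - F (R.b e)) P) c, fun w => ?_⟩
    have hpos : ∀ x : A × Bool, R.node x = R.node t0.1.1.1 →
        s x.1 + F (R.a x.1) - F (R.b x.1) = if x.2 then k * (R.len x.1 : ℤ) else 0 := by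
      rintro ⟨e, b⟩ hx
      cases b
      · simp only [node, Bool.false_eq_true, if_false] at hx ⊢
        exact hFa e hx
      · simp only [node, if_true] at hx ⊢
        exact hFb e hx
    rcases w with ⟨e, i⟩ | ⟨(⟨e, i⟩ | t), j'⟩
    · rw [R.lap_orig M k hk1 F s hs hF c hc0 hck e i]
      rw [if_neg (by simp)]
      have hsum : ∑ t, ((if (R.graph M).src (Sum.inr t) = (⟨e, i⟩ : R.Vert) then
          c t 0 - c t 1 else 0) +
          (if (R.graph M).tgt (Sum.inr t) = (⟨e, i⟩ : R.Vert) then c t k - c t (k - 1) else 0)) =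
          (if (R.graph M).src (Sum.inr t0) = (⟨e, i⟩ : R.Vert) then tent k q0 1 else 0) +
          (if (R.graph M).tgt (Sum.inr t0) = (⟨e, i⟩ : R.Vert) then tent k q0 (k - 1) else 0) := by
        rw [Finset.sum_eq_single t0]
        · have h1 : c t0 0 - c t0 1 = tent k q0 1 := by
            simp only [hc, if_true]
            push_cast
            rw [T0]
            ring
          have h2 : c t0 k - c t0 (k - 1) = tent k q0 (k - 1) := by
            simp only [hc, if_true]
            rw [Tk]
            have : ((k - 1 : ℕ) : ℤ) = (k : ℤ) - 1 := by omega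
            rw [this]
            ring
          rw [h1, h2]
        · intro t _ ht
          simp only [hc, if_neg ht]
          simp
        · simp
      rw [hsum]
      have hPs : ∀ x : A × Bool, R.node x = R.node t0.1.1.1 → R.endV x = ⟨e, i⟩ →
          (k : ℤ) * (i.val : ℤ) = s e + F (R.a e) - F (R.b e) := by
        rintro ⟨e', b⟩ hx hxe
        simp only [endV, Sigma.mk.injEq] at hxe
        obtain ⟨rfl, hxe⟩ := hxe
        have hxe := eq_of_heq hxe
        have h1 := hpos (e', b) hx
        simp only at h1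
        rw [h1, ← hxe]
        cases b <;> simp
      have hne := (R.graph M).ne (Sum.inr t0)
      have hext1 : R.ext M k (fun e P => if P = s e then (1 : ℤ) else 0) (fun _ _ => 0)
          (Sum.inl ⟨e, i⟩) = (if (k : ℤ) * (i.val : ℤ) = s e then (1 : ℤ) else 0) := rfl
      rw [hext1]
      by_cases ha : (R.graph M).src (Sum.inr t0) = (⟨e, i⟩ : R.Vert)
      · have hb : ¬ (R.graph M).tgt (Sum.inr t0) = (⟨e, i⟩ : R.Vert) := by
          rw [← ha]
          exact hne.symm
        rw [if_pos ha, if_neg hb, if_pos (hPs t0.1.1.1 rfl ha)]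
        linarith
      · by_cases hb : (R.graph M).tgt (Sum.inr t0) = (⟨e, i⟩ : R.Vert)
        · rw [if_neg ha, if_pos hb, if_pos (hPs t0.1.1.2 t0.1.2.2.symm hb)]
          linarith
        · rw [if_neg ha, if_neg hb]
          have : (0 : ℤ) ≤ (if (k : ℤ) * (i.val : ℤ) = s e + F (R.a e) - F (R.b e) then 1 else 0) := by
            split_ifs <;> norm_num
          linarith
    · rw [R.lap_thin_inner M k (fun e => F (R.a e)) s (fun e => s e + F (R.a e) - F (R.b e)) _ e i j']
      rw [if_neg (by simp)]
      simp only [ext, Sum.elim_inl, Sum.elim_inr]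
      have : (0 : ℤ) ≤ (if (k : ℤ) * (i.val : ℤ) + (j'.val : ℤ) + 1 =
          s e + F (R.a e) - F (R.b e) then 1 else 0) := by
        split_ifs <;> norm_num
      linarith
    · rw [MGraph.lap_subdiv_inr]
      have hj' := j'.isLt
      have hend : ∀ x : A × Bool, hpot (F (R.a x.1)) (s x.1) (s x.1 + F (R.a x.1) - F (R.b x.1))
          (if x.2 then k * (R.len x.1 : ℤ) else 0) = F (R.node x) := by
        rintro ⟨e, b⟩
        have h1 := hs e
        have h2 := hF e
        cases b
        · simp only [hpot, node, Bool.false_eq_true, if_false]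
          omega
        · simp only [hpot, node, if_true]
          generalize (k : ℤ) * (R.len e : ℤ) = Q at *
          omega
      have hpt : ∀ j, j ≤ k → R.ext M k (fun e P => hpot (F (R.a e)) (s e)
          (s e + F (R.a e) - F (R.b e)) P) c
          ((R.graph M).point k (Sum.inr t) j) = c t j := by
        intro j hj
        refine R.ext_point_thick M k hk1 _ c t ?_ ?_ j hj
        · rw [hc0]
          exact hend _
        · rw [hck]
          exact hend _
      rw [hpt _ (by omega), hpt _ (by omega)]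
      have hfv : R.ext M k (fun e P => hpot (F (R.a e)) (s e)
          (s e + F (R.a e) - F (R.b e)) P) c (Sum.inr (Sum.inr t, j')) = c t (j'.val + 1) := rfl
      have hDv : R.ext M k (fun e P => if P = s e then (1 : ℤ) else 0) (fun _ _ => 0)
          (Sum.inr (Sum.inr t, j')) = 0 := rfl
      rw [hfv, hDv]
      by_cases ht : t = t0
      · subst ht
        simp only [hc, if_true]
        push_cast
        by_cases hjj : j' = j
        · subst hjj
          rw [if_pos rfl]
          have e1 : ((j'.val : ℤ) + 2) = q0 + 1 := by omega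
          have e2 : (j'.val : ℤ) = q0 - 1 := by omega
          rw [e1, ← hq0, e2]
          linarith
        · rw [if_neg (by simpa using hjj)]
          have h3 := Tc ((j'.val : ℤ) + 1)
          have e1 : ((j'.val : ℤ) + 1 + 1) = (j'.val : ℤ) + 2 := by ring
          have e2 : ((j'.val : ℤ) + 1 - 1) = (j'.val : ℤ) := by ring
          rw [e1, e2] at h3
          linarith
      · rw [if_neg (by
          intro h
          simp only [Sum.inr.injEq, Prod.mk.injEq] at h
          exact ht h.1)]
        simp only [hc, if_neg ht]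
        linarith

end Net

end Pool.Agent.H997R3.Gon
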